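import Pool.Agent.Q86.EM.Stm5
import Pool.Agent.H888R2.KT.N0
import Pool.Agent.H888R2.KT.N5b
import Pool.Agent.H888R2.KC.R2

/-!
# Log-concave densities of bounded support: bounded, continuous almost everywhere, Gaussian bound
-/

set_option autoImplicit false

namespace Pool.Agent.Q38.EM

open MeasureTheory Set Filter Topology
open scoped ENNReal InnerProductSpace ContDiff
open Pool.Agent.H888R2.KT (LC pst gs zz gc)
open Pool.Agent.H212R2.KLS (mu Bdd)
open Pool.Agent.Q86.EM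

variable {κ : Type} [Fintype κ] {ρ : Eu κ → ℝ}

theorem lc_bdd (hρ : LC ρ) : ∃ B : ℝ, 0 < B ∧ ∀ x, ρ x ≤ B := by
  obtain ⟨B, hB⟩ := Pool.Agent.H888R2.KC.bdd_of_finite ρ hρ.nonneg hρ.meas hρ.logc hρ.fin hρ.ne
  exact ⟨max B 1, lt_max_of_lt_right one_pos, fun x => (hB x).trans (le_max_left _ _)⟩

theorem lc_rad (hρ : LC ρ) : ∃ R : ℝ, 0 < R ∧ ∀ x, R < ‖x‖ → ρ x = 0 := by
  obtain ⟨R, hR⟩ := hρ.bdd
  exact ⟨max R 1, lt_max_of_lt_right one_pos,
    fun x hx => hR x ((le_max_left _ _).trans_lt hx)⟩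

/-- the set of positivity -/
theorem pos_convex (hρ : LC ρ) : Convex ℝ {x | 0 < ρ x} := by
  rw [convex_iff_forall_pos]
  intro x hx y hy a b ha hb hab
  have ha' : a = 1 - b := by linarith
  have h1 := hρ.logc x y b hb (by linarith)
  rw [← ha'] at h1
  exact lt_of_lt_of_le (mul_pos (Real.rpow_pos_of_pos hx _) (Real.rpow_pos_of_pos hy _)) h1

theorem log_convex (hρ : LC ρ) : ConvexOn ℝ {x | 0 < ρ x} (fun x => -Real.log (ρ x)) := by
  rw [convexOn_iff_forall_pos]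
  refine ⟨pos_convex hρ, fun x hx y hy a b ha hb hab => ?_⟩
  have ha' : a = 1 - b := by linarith
  have h1 := hρ.logc x y b hb (by linarith)
  rw [← ha'] at h1
  have h2 := Real.log_le_log (mul_pos (Real.rpow_pos_of_pos hx a) (Real.rpow_pos_of_pos hy b)) h1
  rw [Real.log_mul (Real.rpow_pos_of_pos hx a).ne' (Real.rpow_pos_of_pos hy b).ne',
    Real.log_rpow hx, Real.log_rpow hy] at h2
  simp only [smul_eq_mul]
  linarith

theorem cont_interior (hρ : LC ρ) {x : Eu κ} (hx : x ∈ interior {x | 0 < ρ x}) :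
    ContinuousAt ρ x := by
  have h1 : ContinuousAt (fun x => -Real.log (ρ x)) x :=
    (log_convex hρ).continuousOn_interior.continuousAt (isOpen_interior.mem_nhds hx)
  have h2 : ContinuousAt (fun x => Real.exp (-(-Real.log (ρ x)))) x := h1.neg.rexp
  refine h2.congr ?_
  filter_upwards [isOpen_interior.mem_nhds hx] with y hy
  have h3 : 0 < ρ y := (interior_subset hy : y ∈ {x | 0 < ρ x})
  rw [neg_neg, Real.exp_log h3]

theorem cont_exterior (hρ : LC ρ) {x : Eu κ} (hx : x ∉ closure {x | 0 < ρ x}) :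
    ContinuousAt ρ x := by
  have h2 : ContinuousAt (fun _ : Eu κ => (0 : ℝ)) x := continuousAt_const
  refine h2.congr ?_
  filter_upwards [isClosed_closure.isOpen_compl.mem_nhds hx] with y hy
  have h3 : ¬ 0 < ρ y := fun h => hy (subset_closure h)
  exact le_antisymm (hρ.nonneg y) (not_lt.1 h3)

theorem ae_cont (hρ : LC ρ) : ∀ᵐ x, ContinuousAt ρ x := by
  have h1 : (volume : Measure (Eu κ)) (frontier {x | 0 < ρ x}) = 0 :=
    (pos_convex hρ).addHaar_frontier _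
  have h2 : ∀ᵐ x : Eu κ, x ∉ frontier {x | 0 < ρ x} := measure_eq_zero_iff_ae_notMem.1 h1
  filter_upwards [h2] with x hx
  by_cases h3 : x ∈ interior {x | 0 < ρ x}
  · exact cont_interior hρ h3
  · refine cont_exterior hρ fun h4 => hx ⟨h4, h3⟩

theorem gc_double (h : ℝ) (hh : 0 < h) :
    gc κ (2 * h) = 2 ^ ((Fintype.card κ : ℝ) / 2) * gc κ h := by
  have key : ∀ b : ℝ, 0 < b → ∫ y : Eu κ, Real.exp (-b * ‖y‖ ^ 2) =
      (Real.pi / b) ^ ((Fintype.card κ : ℝ) / 2) := by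
    intro b hb
    have := GaussianFourier.integral_rexp_neg_mul_sq_norm (V := Eu κ) hb
    rw [this]
    simp [finrank_euclideanSpace]
  have e1 : ∀ r : ℝ, 0 < r → gc κ r = (Real.pi / (1 / (2 * r))) ^ ((Fintype.card κ : ℝ) / 2) := by
    intro r hr
    rw [← key _ (by positivity)]
    unfold gc
    refine integral_congr_ae (Filter.Eventually.of_forall fun y => ?_)
    show Real.exp _ = Real.exp _
    congr 1
    ring
  rw [e1 _ (by positivity), e1 _ hh, ← Real.mul_rpow (by norm_num) (by positivity)]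
  congr 1
  field_simp

theorem zz_vol (hρ : LC ρ) (h : ℝ) (y : Eu κ) :
    zz h ρ y = ∫ x, ρ x * Real.exp (-(‖x - y‖ ^ 2 / (2 * h))) :=
  Pool.Agent.H888R2.KT.N5bx.conv hρ _

theorem gauss_shift (h : ℝ) (hh : 0 < h) (y : Eu κ) :
    Integrable (fun x : Eu κ => Real.exp (-(‖x - y‖ ^ 2 / (2 * h)))) ∧
    ∫ x : Eu κ, Real.exp (-(‖x - y‖ ^ 2 / (2 * h))) = gc κ h := by
  obtain ⟨-, h1, h2, -⟩ := Pool.Agent.H888R2.KT.gc_pos (κ := κ) h hh
  have e : (fun x : Eu κ => Real.exp (-(‖x - y‖ ^ 2 / (2 * h)))) =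
      fun x => Real.exp (-(‖y - x‖ ^ 2 / (2 * h))) := by
    funext x
    rw [norm_sub_rev]
  rw [e]
  exact ⟨h2 y, h1 y⟩

/-- domination: `ρ ≤ B g`, `exp(..) ≤ c exp(-‖x - y‖²/2r)` on the support -/
theorem zz_le (hρ : LC ρ) {B c h r : ℝ} (hB0 : 0 ≤ B) (hB : ∀ x, ρ x ≤ B) (hr : 0 < r)
    (y : Eu κ) (hc : 0 ≤ c) (hx : ∀ x, ρ x ≠ 0 → Real.exp (-(‖x - y‖ ^ 2 / (2 * h))) ≤
      c * Real.exp (-(‖x - y‖ ^ 2 / (2 * r)))) : zz h ρ y ≤ B * c * gc κ r := by
  rw [zz_vol hρ]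
  obtain ⟨i1, e1⟩ := gauss_shift (κ := κ) r hr y
  rw [← e1, ← integral_const_mul]
  refine integral_mono_of_nonneg (Filter.Eventually.of_forall fun x =>
    mul_nonneg (hρ.nonneg x) (Real.exp_pos _).le) (i1.const_mul _)
    (Filter.Eventually.of_forall fun x => ?_)
  show ρ x * _ ≤ _
  by_cases h0 : ρ x = 0
  · rw [h0, zero_mul]
    positivity
  · calc ρ x * Real.exp (-(‖x - y‖ ^ 2 / (2 * h)))
        ≤ B * (c * Real.exp (-(‖x - y‖ ^ 2 / (2 * r)))) :=
          mul_le_mul (hB x) (hx x h0) (Real.exp_pos _).le hB0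
      _ = B * c * Real.exp (-(‖x - y‖ ^ 2 / (2 * r))) := by ring

theorem dbd : S_DBD := by
  intro κ _ ρ hρ
  obtain ⟨B, hB0, hB⟩ := lc_bdd hρ
  obtain ⟨R, hR0, hR⟩ := lc_rad hρ
  refine ⟨⟨B, hB⟩, ae_cont hρ, ?_⟩
  set K : ℝ := 2 ^ ((Fintype.card κ : ℝ) / 2) with hK
  have hK0 : 0 < K := Real.rpow_pos_of_pos (by norm_num) _
  refine ⟨B * Real.exp (R ^ 2 / 4) + B * K, by positivity, fun h hh h1 y => ?_⟩
  have hg := (Pool.Agent.H888R2.KT.gc_pos (κ := κ) h hh).1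
  unfold sh
  rw [div_le_iff₀ hg]
  have hE : 0 < Real.exp (-(‖y‖ ^ 2 / 16)) := Real.exp_pos _
  rcases le_or_gt (2 * R) ‖y‖ with h2 | h2
  · have h3 := zz_le hρ (h := h) (c := Real.exp (-(‖y‖ ^ 2 / 16))) (r := 2 * h) hB0.le hB (by positivity)
      y hE.le (fun x hx => by
        rw [← Real.exp_add, Real.exp_le_exp]
        have h4 : ‖x‖ ≤ R := by
          by_contra hc
          exact hx (hR x (not_le.1 hc))
        have h5 : ‖y‖ / 2 ≤ ‖x - y‖ := by
          have h6 : ‖y‖ ≤ ‖x‖ + ‖x - y‖ := by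
            have := norm_sub_le x (x - y)
            rwa [sub_sub_cancel] at this
          linarith
        have h6 : ‖y‖ ^ 2 / 4 ≤ ‖x - y‖ ^ 2 := by
          have := pow_le_pow_left₀ (by positivity) h5 2
          rw [div_pow] at this
          norm_num at this ⊢
          exact this
        have h7 : ‖x - y‖ ^ 2 / (2 * h) = ‖x - y‖ ^ 2 / (2 * (2 * h)) + ‖x - y‖ ^ 2 / (4 * h) := by
          field_simp
          ring
        have h8 : ‖y‖ ^ 2 / 16 ≤ ‖x - y‖ ^ 2 / (4 * h) := by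
          rw [le_div_iff₀ (by positivity)]
          have h9 : ‖y‖ ^ 2 * h ≤ ‖y‖ ^ 2 := by nlinarith [sq_nonneg ‖y‖]
          nlinarith
        linarith)
    rw [gc_double h hh] at h3
    calc zz h ρ y ≤ B * Real.exp (-(‖y‖ ^ 2 / 16)) * (K * gc κ h) := h3
      _ = B * K * Real.exp (-(‖y‖ ^ 2 / 16)) * gc κ h := by ring
      _ ≤ (B * Real.exp (R ^ 2 / 4) + B * K) * Real.exp (-(‖y‖ ^ 2 / 16)) * gc κ h := by
          have h10 : B * K ≤ B * Real.exp (R ^ 2 / 4) + B * K := by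
            have : 0 < B * Real.exp (R ^ 2 / 4) := by positivity
            linarith
          exact mul_le_mul_of_nonneg_right (mul_le_mul_of_nonneg_right h10 hE.le) hg.le
  · have h3 := zz_le hρ (h := h) (c := 1) (r := h) hB0.le hB hh y zero_le_one (fun x _ => by rw [one_mul])
    have h4 : 1 ≤ Real.exp (R ^ 2 / 4) * Real.exp (-(‖y‖ ^ 2 / 16)) := by
      rw [← Real.exp_add]
      apply Real.one_le_exp
      have h5 := pow_le_pow_left₀ (norm_nonneg y) h2.le 2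
      nlinarith
    calc zz h ρ y ≤ B * 1 * gc κ h := h3
      _ ≤ B * (Real.exp (R ^ 2 / 4) * Real.exp (-(‖y‖ ^ 2 / 16))) * gc κ h :=
          mul_le_mul_of_nonneg_right (mul_le_mul_of_nonneg_left h4 hB0.le) hg.le
      _ = (B * Real.exp (R ^ 2 / 4)) * Real.exp (-(‖y‖ ^ 2 / 16)) * gc κ h := by ring
      _ ≤ (B * Real.exp (R ^ 2 / 4) + B * K) * Real.exp (-(‖y‖ ^ 2 / 16)) * gc κ h := by
          have h10 : B * Real.exp (R ^ 2 / 4) ≤ B * Real.exp (R ^ 2 / 4) + B * K := by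
            have : 0 < B * K := by positivity
            linarith
          exact mul_le_mul_of_nonneg_right (mul_le_mul_of_nonneg_right h10 hE.le) hg.le

end Pool.Agent.Q38.EM
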