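import Pool.Agent.Q38.EM.Dbd
import Pool.Agent.Q182.EM.Crb
import Pool.Agent.Q65.EM.Smz

/-!
# A crude Poincare inequality for all fibres of the regularisation
-/

set_option autoImplicit false

namespace Pool.Agent.Q38.EM

open MeasureTheory Set Filter Topology
open scoped ENNReal InnerProductSpace ContDiff
open Pool.Agent.H888R2.KT (LC zz gc)
open Pool.Agent.H212R2.KLS (mu Bdd)
open Pool.Agent.Q86.EM
open Pool.Agent.Q86.FIB hiding zc
open Pool.Agent.Q182.EM (gi gi2 zc nsq pq nsq_sub zc_le scale1 scale2 gpos)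

/-- the inequality for the fibres from a moment bound -/
theorem crb_gen : ∃ C : ℝ, 0 < C ∧ ∀ (n : ℕ) (U : EK 1 n → ℝ), Continuous U → ConvexOn ℝ univ U →
    ∀ σ : ℝ, 0 < σ → ∀ t : Sp 1,
    Integrable (fun x : EuclideanSpace ℝ (Fin n) => Real.exp (-U (pq t x))) →
    Integrable (fun x : EuclideanSpace ℝ (Fin n) => ‖x‖ ^ 2 * Real.exp (-U (pq t x))) →
    ∫ x : EuclideanSpace ℝ (Fin n), ‖x‖ ^ 2 * Real.exp (-U (pq t x)) ≤
      σ ^ 2 * ∫ x : EuclideanSpace ℝ (Fin n), Real.exp (-U (pq t x)) →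
    ∀ φ : Sp n → ℝ, ContDiff ℝ 1 φ → HasCompactSupport φ →
      dens (onSp U) t * (∫ z, φ z ^ 2 * Real.exp (-onSp U (t, z))) -
        (∫ z, φ z * Real.exp (-onSp U (t, z))) ^ 2 ≤
      C * σ ^ 2 * dens (onSp U) t *
        ∫ z, (∑ i, (pd (sv i) φ z) ^ 2) * Real.exp (-onSp U (t, z)) := by
  obtain ⟨C, hC, hcr⟩ := Pool.Agent.H888R2.KT.crude_all
  refine ⟨C, hC, fun n U hUc hUv σ hσ t i1 i2 hm φ hφ hφs => ?_⟩
  have hWc : Continuous fun z : Sp n => onSp U (t, z) :=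
    hUc.comp ((spl 1 n).symm.continuous.comp (continuous_const.prodMk continuous_id))
  have hEc : Continuous fun z : Sp n => Real.exp (-onSp U (t, z)) := Real.continuous_exp.comp hWc.neg
  have hpc : Continuous fun x : EuclideanSpace ℝ (Fin n) => pq t x :=
    (spl 1 n).symm.continuous.comp (continuous_const.prodMk (lp n).continuous)
  have hZc : Continuous fun x : EuclideanSpace ℝ (Fin n) => Real.exp (-U (pq t x)) :=
    Real.continuous_exp.comp (hUc.comp hpc).neg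
  have hZe : ∀ x : EuclideanSpace ℝ (Fin n), Real.exp (-U (pq t x)) =
      (fun z : Sp n => Real.exp (-onSp U (t, z))) (lp n x) := fun x => rfl
  have bb : ∀ g : Sp n → ℝ, Continuous g → HasCompactSupport g →
      Integrable (fun z => g z * Real.exp (-onSp U (t, z))) := fun g hg hs =>
    cc_int _ (hg.mul hEc) hs.mul_right
  have gc : Continuous fun z : Sp n => ∑ i, (pd (sv i) φ z) ^ 2 :=
    continuous_finsetSum _ fun i _ => (pd_cont hφ _).pow 2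
  have gs : HasCompactSupport fun z : Sp n => ∑ i, (pd (sv i) φ z) ^ 2 := cs_sum _ fun i _ => by
    simp_rw [pow_two]
    exact (pd_supp hφs _).mul_right
  have hG : ∀ x : EuclideanSpace ℝ (Fin n),
      ‖fderiv ℝ (fun x : EuclideanSpace ℝ (Fin n) => φ (lp n x + 0)) x‖ ^ 2 * Real.exp (-U (pq t x)) =
      (fun z : Sp n => (∑ i, (pd (sv i) φ z) ^ 2) * Real.exp (-onSp U (t, z))) (lp n x) := by
    intro x
    rw [norm_fderiv_sq hφ 0 x, add_zero]
    rfl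
  obtain ⟨c, hc⟩ := hcr (fun x : EuclideanSpace ℝ (Fin n) => Real.exp (-U (pq t x)))
    (fun x => φ (lp n x + 0)) (fun x => Real.exp_pos _) hZc (fun a b s hs0 hs1 => by
      rw [← Real.exp_mul, ← Real.exp_mul, ← Real.exp_add]
      refine Real.exp_le_exp.2 ?_
      have h2 := hUv.2 (mem_univ (pq t a)) (mem_univ (pq t b)) (by linarith : 0 ≤ 1 - s) hs0.le
        (by ring)
      have h3 : (1 - s) • pq t a + s • pq t b = pq t ((1 - s) • a + s • b) := by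
        unfold pq
        rw [← map_smul, ← map_smul, ← map_add]
        congr 1
        rw [Prod.smul_mk, Prod.smul_mk, Prod.mk_add_mk, map_add, map_smul, map_smul, ← add_smul,
          sub_add_cancel, one_smul]
      rw [h3] at h2
      simp only [smul_eq_mul] at h2
      linarith)
    i1 σ hσ i2 hm (comp_smooth hφ 0) (by
      obtain ⟨B, hB⟩ := hφs.exists_bound_of_continuous hφ.continuous
      exact ⟨B, fun x => hB _⟩) (by
      simp_rw [hG]
      exact lp_integrable (bb _ gc gs))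
  simp_rw [hG] at hc
  rw [lp_int (fun z : Sp n => (∑ i, (pd (sv i) φ z) ^ 2) * Real.exp (-onSp U (t, z)))] at hc
  have e5 : ∫ x : EuclideanSpace ℝ (Fin n), (φ (lp n x + 0) - c) ^ 2 * Real.exp (-U (pq t x)) =
      ∫ z : Sp n, (φ z - c) ^ 2 * Real.exp (-onSp U (t, z)) := by
    rw [← lp_int (fun z : Sp n => (φ z - c) ^ 2 * Real.exp (-onSp U (t, z)))]
    refine integral_congr_ae (Eventually.of_forall fun x => ?_)
    simp only [add_zero]
    rfl
  rw [e5] at hc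
  have hdi : Integrable (fun z : Sp n => Real.exp (-onSp U (t, z))) := by
    have h := (EuclideanSpace.volume_preserving_symm_measurableEquiv_toLp
      (Fin n)).integrable_comp_emb
      (MeasurableEquiv.toLp 2 (Fin n → ℝ)).symm.measurableEmbedding
      (g := fun z : Sp n => Real.exp (-onSp U (t, z)))
    exact h.1 i1
  have j1 := bb (fun z => φ z ^ 2) (hφ.continuous.pow 2) (by simp_rw [pow_two]; exact hφs.mul_right)
  have j2 := bb φ hφ.continuous hφs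
  have hde : dens (onSp U) t = ∫ z : Sp n, Real.exp (-onSp U (t, z)) := rfl
  have hd0 : 0 ≤ dens (onSp U) t := by
    rw [hde]
    exact integral_nonneg fun z => (Real.exp_pos _).le
  have j3 : Integrable (fun z => 2 * c * (φ z * Real.exp (-onSp U (t, z)))) := j2.const_mul _
  have j4 : Integrable (fun z : Sp n => c ^ 2 * Real.exp (-onSp U (t, z))) := hdi.const_mul _
  have j12 : Integrable (fun z => φ z ^ 2 * Real.exp (-onSp U (t, z)) -
      2 * c * (φ z * Real.exp (-onSp U (t, z)))) := j1.sub j3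
  have h2 : ∫ z, (φ z - c) ^ 2 * Real.exp (-onSp U (t, z)) =
      (∫ z, φ z ^ 2 * Real.exp (-onSp U (t, z))) - (∫ z, 2 * c * (φ z * Real.exp (-onSp U (t, z)))) +
        ∫ z, c ^ 2 * Real.exp (-onSp U (t, z)) := by
    rw [← integral_sub j1 j3, ← integral_add j12 j4]
    refine integral_congr_ae (Eventually.of_forall fun z => ?_)
    simp only
    ring
  rw [h2, integral_const_mul, integral_const_mul, ← hde] at hc
  obtain ⟨d, hd⟩ : ∃ d, d = dens (onSp U) t := ⟨_, rfl⟩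
  obtain ⟨a2, ha2⟩ : ∃ a2, a2 = ∫ z, φ z ^ 2 * Real.exp (-onSp U (t, z)) := ⟨_, rfl⟩
  obtain ⟨a1, ha1⟩ : ∃ a1, a1 = ∫ z, φ z * Real.exp (-onSp U (t, z)) := ⟨_, rfl⟩
  obtain ⟨G, hGd⟩ : ∃ G, G = ∫ z, (∑ i, (pd (sv i) φ z) ^ 2) * Real.exp (-onSp U (t, z)) := ⟨_, rfl⟩
  rw [← hd, ← ha2, ← ha1, ← hGd] at hc
  rw [← hd] at hd0
  rw [← hd, ← ha2, ← ha1, ← hGd]
  have h3 := mul_le_mul_of_nonneg_left hc hd0
  nlinarith [sq_nonneg (a1 - c * d)]

theorem gm (n : ℕ) : ∃ K : ℝ, 0 ≤ K ∧ ∀ h : ℝ, 0 < h → h ≤ 1 →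
    ∫ x : EuclideanSpace ℝ (Fin n), ‖x‖ ^ 2 * Real.exp (-(‖x‖ ^ 2 / (2 * h))) ≤
      K * ∫ x : EuclideanSpace ℝ (Fin n), Real.exp (-(‖x‖ ^ 2 / (2 * h))) := by
  obtain ⟨c1, hc1⟩ : ∃ c1, c1 = ∫ x : EuclideanSpace ℝ (Fin n), Real.exp (-(1 / 2 * ‖x‖ ^ 2)) :=
    ⟨_, rfl⟩
  obtain ⟨c2, hc2⟩ : ∃ c2, c2 = ∫ x : EuclideanSpace ℝ (Fin n),
    ‖x‖ ^ 2 * Real.exp (-(1 / 2 * ‖x‖ ^ 2)) := ⟨_, rfl⟩
  have hc1p : 0 < c1 := by
    rw [hc1]
    exact gpos (by norm_num)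
  have hc2p : 0 ≤ c2 := by
    rw [hc2]
    exact integral_nonneg fun x => by positivity
  refine ⟨c2 / c1, by positivity, fun h hh h1 => ?_⟩
  obtain ⟨s, hs⟩ : ∃ s, s = Real.sqrt h⁻¹ := ⟨_, rfl⟩
  have hs0 : 0 < s := by
    rw [hs]
    exact Real.sqrt_pos.2 (inv_pos.2 hh)
  have hs2 : s ^ 2 = h⁻¹ := by
    rw [hs]
    exact Real.sq_sqrt (inv_pos.2 hh).le
  have e : ∀ x : EuclideanSpace ℝ (Fin n), ‖x‖ ^ 2 / (2 * h) = 1 / 2 * s ^ 2 * ‖x‖ ^ 2 := by
    intro x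
    rw [hs2]
    field_simp
  simp_rw [e]
  rw [scale1 hs0, scale2 hs0, ← hc1, ← hc2]
  have h2 : (s ^ 2)⁻¹ ≤ 1 := by
    rw [hs2, inv_inv]
    exact h1
  have h3 : 0 ≤ (s ^ n)⁻¹ * c2 := by positivity
  calc (s ^ 2)⁻¹ * ((s ^ n)⁻¹ * c2) ≤ (s ^ n)⁻¹ * c2 := mul_le_of_le_one_left h3 h2
    _ = c2 / c1 * ((s ^ n)⁻¹ * c1) := by
      field_simp

theorem gb (n : ℕ) (h : ℝ) (hh : 0 < h) :
    Integrable (fun x : EuclideanSpace ℝ (Fin n) => Real.exp (-(‖x‖ ^ 2 / (2 * h)))) ∧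
    Integrable (fun x : EuclideanSpace ℝ (Fin n) => ‖x‖ ^ 2 * Real.exp (-(‖x‖ ^ 2 / (2 * h)))) := by
  have e : ∀ x : EuclideanSpace ℝ (Fin n), ‖x‖ ^ 2 / (2 * h) = 1 / (2 * h) * ‖x‖ ^ 2 := by
    intro x
    ring
  simp_rw [e]
  exact ⟨gi (by positivity), gi2 (by positivity)⟩

/-- shifted Gaussians -/
theorem gsh (n : ℕ) (R : ℝ) (hR : 0 < R) : ∃ M : ℝ, 0 < M ∧ ∀ h : ℝ, 0 < h → h ≤ 1 →
    ∀ z : EuclideanSpace ℝ (Fin n), ‖z‖ ≤ R →
    ∫⁻ x : EuclideanSpace ℝ (Fin n), ENNReal.ofReal (‖x‖ ^ 2 * Real.exp (-(‖x - z‖ ^ 2 / (2 * h)))) ≤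
      ENNReal.ofReal M *
        ∫⁻ x : EuclideanSpace ℝ (Fin n), ENNReal.ofReal (Real.exp (-(‖x - z‖ ^ 2 / (2 * h)))) := by
  obtain ⟨K, hK, hg⟩ := gm n
  refine ⟨2 * R ^ 2 + 2 * K, by positivity, fun h hh h1 z hz => ?_⟩
  obtain ⟨i1, i2⟩ := gb n h hh
  have j1 : Integrable (fun x : EuclideanSpace ℝ (Fin n) => Real.exp (-(‖x - z‖ ^ 2 / (2 * h)))) :=
    i1.comp_sub_right z
  have j2 : Integrable (fun x : EuclideanSpace ℝ (Fin n) =>
      ‖x - z‖ ^ 2 * Real.exp (-(‖x - z‖ ^ 2 / (2 * h)))) := i2.comp_sub_right z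
  have hp : ∀ x : EuclideanSpace ℝ (Fin n), ‖x‖ ^ 2 * Real.exp (-(‖x - z‖ ^ 2 / (2 * h))) ≤
      2 * (‖x - z‖ ^ 2 * Real.exp (-(‖x - z‖ ^ 2 / (2 * h)))) +
        2 * R ^ 2 * Real.exp (-(‖x - z‖ ^ 2 / (2 * h))) := by
    intro x
    have h2 : ‖x‖ ≤ ‖x - z‖ + R := by
      have := norm_add_le (x - z) z
      rw [sub_add_cancel] at this
      linarith
    have h3 : ‖x‖ ^ 2 ≤ 2 * ‖x - z‖ ^ 2 + 2 * R ^ 2 := by
      have := pow_le_pow_left₀ (norm_nonneg x) h2 2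
      nlinarith [sq_nonneg (‖x - z‖ - R)]
    have h4 := mul_le_mul_of_nonneg_right h3 (Real.exp_pos (-(‖x - z‖ ^ 2 / (2 * h)))).le
    linarith
  have j3 : Integrable (fun x : EuclideanSpace ℝ (Fin n) =>
      2 * (‖x - z‖ ^ 2 * Real.exp (-(‖x - z‖ ^ 2 / (2 * h)))) +
        2 * R ^ 2 * Real.exp (-(‖x - z‖ ^ 2 / (2 * h)))) := (j2.const_mul 2).add (j1.const_mul _)
  have j4 : Integrable (fun x : EuclideanSpace ℝ (Fin n) =>
      ‖x‖ ^ 2 * Real.exp (-(‖x - z‖ ^ 2 / (2 * h)))) := by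
    refine j3.mono' (by fun_prop : Continuous fun x : EuclideanSpace ℝ (Fin n) =>
      ‖x‖ ^ 2 * Real.exp (-(‖x - z‖ ^ 2 / (2 * h)))).aestronglyMeasurable
      (Eventually.of_forall fun x => ?_)
    rw [Real.norm_of_nonneg (by positivity)]
    exact hp x
  rw [← ofReal_integral_eq_lintegral_ofReal j4 (Eventually.of_forall fun x => by positivity),
    ← ofReal_integral_eq_lintegral_ofReal j1 (Eventually.of_forall fun x => by positivity),
    ← ENNReal.ofReal_mul (by positivity)]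
  refine ENNReal.ofReal_le_ofReal ?_
  have e1 : ∫ x : EuclideanSpace ℝ (Fin n), Real.exp (-(‖x - z‖ ^ 2 / (2 * h))) =
      ∫ x : EuclideanSpace ℝ (Fin n), Real.exp (-(‖x‖ ^ 2 / (2 * h))) :=
    integral_sub_right_eq_self (fun x : EuclideanSpace ℝ (Fin n) =>
      Real.exp (-(‖x‖ ^ 2 / (2 * h)))) z
  have e2 : ∫ x : EuclideanSpace ℝ (Fin n), ‖x - z‖ ^ 2 * Real.exp (-(‖x - z‖ ^ 2 / (2 * h))) =
      ∫ x : EuclideanSpace ℝ (Fin n), ‖x‖ ^ 2 * Real.exp (-(‖x‖ ^ 2 / (2 * h))) :=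
    integral_sub_right_eq_self (fun x : EuclideanSpace ℝ (Fin n) =>
      ‖x‖ ^ 2 * Real.exp (-(‖x‖ ^ 2 / (2 * h)))) z
  calc ∫ x : EuclideanSpace ℝ (Fin n), ‖x‖ ^ 2 * Real.exp (-(‖x - z‖ ^ 2 / (2 * h)))
      ≤ ∫ x : EuclideanSpace ℝ (Fin n),
        (2 * (‖x - z‖ ^ 2 * Real.exp (-(‖x - z‖ ^ 2 / (2 * h)))) +
        2 * R ^ 2 * Real.exp (-(‖x - z‖ ^ 2 / (2 * h)))) := integral_mono j4 j3 hp
    _ = 2 * (∫ x : EuclideanSpace ℝ (Fin n), ‖x‖ ^ 2 * Real.exp (-(‖x‖ ^ 2 / (2 * h)))) +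
        2 * R ^ 2 * ∫ x : EuclideanSpace ℝ (Fin n), Real.exp (-(‖x‖ ^ 2 / (2 * h))) := by
        rw [integral_add (j2.const_mul 2) (j1.const_mul _), integral_const_mul,
          integral_const_mul, e1, e2]
    _ ≤ 2 * (K * ∫ x : EuclideanSpace ℝ (Fin n), Real.exp (-(‖x‖ ^ 2 / (2 * h)))) +
        2 * R ^ 2 * ∫ x : EuclideanSpace ℝ (Fin n), Real.exp (-(‖x‖ ^ 2 / (2 * h))) := by
        have := hg h hh h1
        linarith
    _ = (2 * R ^ 2 + 2 * K) * ∫ x : EuclideanSpace ℝ (Fin n),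
        Real.exp (-(‖x - z‖ ^ 2 / (2 * h))) := by
        rw [e1]
        ring

theorem pq_cont {n : ℕ} (t : Sp 1) : Continuous fun x : EuclideanSpace ℝ (Fin n) => pq t x :=
  (spl 1 n).symm.continuous.comp (continuous_const.prodMk (lp n).continuous)

theorem tc_cont' {n : ℕ} : Continuous fun q : EK 1 n => tc q :=
  (continuous_apply 0).comp (continuous_fst.comp (spl 1 n).continuous)

theorem zc_cont {n : ℕ} : Continuous fun q : EK 1 n => zc q :=
  (lp n).symm.continuous.comp (continuous_snd.comp (spl 1 n).continuous)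

/-- the second moments of the fibres of the regularisation, uniformly -/
theorem moment_lint {n : ℕ} {ρ : EK 1 n → ℝ} (hρ : LC ρ) : ∃ M : ℝ, 0 < M ∧ ∀ h : ℝ, 0 < h → h ≤ 1 →
    ∀ t : Sp 1,
    ∫⁻ x : EuclideanSpace ℝ (Fin n), ENNReal.ofReal (‖x‖ ^ 2 * zz h ρ (pq t x)) ≤
      ENNReal.ofReal M * ∫⁻ x : EuclideanSpace ℝ (Fin n), ENNReal.ofReal (zz h ρ (pq t x)) := by
  obtain ⟨R, hR0, hR⟩ := lc_rad hρ
  obtain ⟨M, hM, hg⟩ := gsh n R hR0
  refine ⟨M, hM, fun h hh h1 t => ?_⟩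
  set w : EK 1 n → ℝ≥0∞ := fun q =>
    ENNReal.ofReal (ρ q * Real.exp (-((tc q - t 0) ^ 2 / (2 * h)))) with hw
  have hwm : Measurable w := (hρ.meas.mul (by
    have := tc_cont' (n := n)
    fun_prop : Continuous fun q : EK 1 n =>
      Real.exp (-((tc q - t 0) ^ 2 / (2 * h)))).measurable).ennreal_ofReal
  have hw0 : ∀ q, w q ≠ ⊤ := fun q => ENNReal.ofReal_ne_top
  have key : ∀ (g : EuclideanSpace ℝ (Fin n) → ℝ), Continuous g → (∀ x, 0 ≤ g x) →
      ∫⁻ x : EuclideanSpace ℝ (Fin n), ENNReal.ofReal (g x * zz h ρ (pq t x)) =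
      ∫⁻ q : EK 1 n, w q * ∫⁻ x : EuclideanSpace ℝ (Fin n),
        ENNReal.ofReal (g x * Real.exp (-(‖x - zc q‖ ^ 2 / (2 * h)))) := by
    intro g hg hg0
    have e1 : ∀ x : EuclideanSpace ℝ (Fin n), ENNReal.ofReal (g x * zz h ρ (pq t x)) =
        ∫⁻ q : EK 1 n, w q * ENNReal.ofReal (g x * Real.exp (-(‖x - zc q‖ ^ 2 / (2 * h)))) := by
      intro x
      rw [ENNReal.ofReal_mul (hg0 x), Pool.Agent.Q65.EM.zz_lint hρ,
        ← lintegral_const_mul' _ _ ENNReal.ofReal_ne_top]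
      refine lintegral_congr fun q => ?_
      rw [hw]
      simp only
      rw [← ENNReal.ofReal_mul (hg0 x), ← ENNReal.ofReal_mul
        (mul_nonneg (hρ.nonneg q) (Real.exp_pos _).le)]
      congr 1
      have e2 : ‖q - pq t x‖ ^ 2 / (2 * h) =
          (tc q - t 0) ^ 2 / (2 * h) + ‖x - zc q‖ ^ 2 / (2 * h) := by
        rw [norm_sub_rev, nsq_sub, ← add_div]
        congr 1
        ring
      rw [e2, neg_add, Real.exp_add]
      ring
    simp_rw [e1]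
    rw [lintegral_lintegral_swap]
    · refine lintegral_congr fun q => ?_
      rw [lintegral_const_mul' _ _ (hw0 q)]
    · refine Measurable.aemeasurable ?_
      refine (hwm.comp measurable_snd).mul ?_
      refine Measurable.ennreal_ofReal (Continuous.measurable ?_)
      have := zc_cont (n := n)
      have h2 : Continuous fun p : EuclideanSpace ℝ (Fin n) × EK 1 n => zc p.2 :=
        this.comp continuous_snd
      fun_prop
  have k1 := key (fun x => ‖x‖ ^ 2) (by fun_prop) (fun x => by positivity)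
  have k2 := key (fun _ => 1) continuous_const (fun x => zero_le_one)
  simp only [one_mul] at k2
  rw [k1, k2, ← lintegral_const_mul' _ _ ENNReal.ofReal_ne_top]
  refine lintegral_mono fun q => ?_
  by_cases hq : ‖q‖ ≤ R
  · have h3 := hg h hh h1 (zc q) (zc_le hR0.le hq)
    calc w q * ∫⁻ x : EuclideanSpace ℝ (Fin n),
          ENNReal.ofReal (‖x‖ ^ 2 * Real.exp (-(‖x - zc q‖ ^ 2 / (2 * h))))
        ≤ w q * (ENNReal.ofReal M * ∫⁻ x : EuclideanSpace ℝ (Fin n),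
          ENNReal.ofReal (Real.exp (-(‖x - zc q‖ ^ 2 / (2 * h))))) := by gcongr
      _ = _ := by ring
  · have h3 : w q = 0 := by
      rw [hw]
      simp only
      rw [hR q (not_le.1 hq), zero_mul, ENNReal.ofReal_zero]
    rw [h3]
    simp

theorem dcr (h1 : S_DPT) : S_DCR := by
  obtain ⟨C, hC, hgen⟩ := crb_gen
  intro n ρ hρ
  obtain ⟨M, hM, hmo⟩ := moment_lint hρ
  obtain ⟨-, -, B, hB, hgb⟩ := dbd _ ρ hρ
  refine ⟨C * Real.sqrt M ^ 2, by positivity, fun h hh hh1 t φ hφ hφs => ?_⟩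
  obtain ⟨p1, p2, p3, -⟩ := h1 _ ρ hρ h hh
  have hUc : Continuous (Uh h ρ) := p3.htg.1.continuous
  have hg := (Pool.Agent.H888R2.KT.gc_pos (κ := Fin 1 ⊕ Fin n) h hh).1
  have hZ : ∀ x : EuclideanSpace ℝ (Fin n), Real.exp (-Uh h ρ (pq t x)) =
      (gc (Fin 1 ⊕ Fin n) h)⁻¹ * zz h ρ (pq t x) := by
    intro x
    rw [p2]
    unfold sh
    rw [div_eq_inv_mul]
  have hz0 : ∀ x : EuclideanSpace ℝ (Fin n), 0 ≤ zz h ρ (pq t x) := fun x =>
    (Pool.Agent.H888R2.KT.N3x.zz_pos' hρ h _).le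
  have hZc : Continuous fun x : EuclideanSpace ℝ (Fin n) => Real.exp (-Uh h ρ (pq t x)) :=
    Real.continuous_exp.comp (hUc.comp (pq_cont t)).neg
  have hZb : ∀ x : EuclideanSpace ℝ (Fin n), Real.exp (-Uh h ρ (pq t x)) ≤
      B * Real.exp (-(1 / 16 * ‖x‖ ^ 2)) := by
    intro x
    rw [p2]
    refine (hgb h hh hh1 _).trans (mul_le_mul_of_nonneg_left (Real.exp_le_exp.2 ?_) hB.le)
    have h2 := nsq_sub t x 0
    have h3 : zc (0 : EK 1 n) = 0 := by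
      unfold zc
      rw [map_zero, Prod.snd_zero, map_zero]
    rw [sub_zero, h3, sub_zero] at h2
    rw [h2]
    nlinarith [sq_nonneg (t 0 - tc (0 : EK 1 n))]
  have i1 : Integrable (fun x : EuclideanSpace ℝ (Fin n) => Real.exp (-Uh h ρ (pq t x))) := by
    refine ((gi (n := n) (b := 1 / 16) (by norm_num)).const_mul B).mono' hZc.aestronglyMeasurable
      (Eventually.of_forall fun x => ?_)
    rw [Real.norm_of_nonneg (Real.exp_pos _).le]
    exact hZb x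
  have i2 : Integrable (fun x : EuclideanSpace ℝ (Fin n) =>
      ‖x‖ ^ 2 * Real.exp (-Uh h ρ (pq t x))) := by
    refine ((gi2 (n := n) (b := 1 / 16) (by norm_num)).const_mul B).mono'
      ((continuous_norm.pow 2).mul hZc).aestronglyMeasurable (Eventually.of_forall fun x => ?_)
    rw [Real.norm_of_nonneg (by positivity)]
    have := mul_le_mul_of_nonneg_left (hZb x) (sq_nonneg ‖x‖)
    calc ‖x‖ ^ 2 * Real.exp (-Uh h ρ (pq t x)) ≤
          ‖x‖ ^ 2 * (B * Real.exp (-(1 / 16 * ‖x‖ ^ 2))) := this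
      _ = _ := by ring
  have hm : ∫ x : EuclideanSpace ℝ (Fin n), ‖x‖ ^ 2 * Real.exp (-Uh h ρ (pq t x)) ≤
      Real.sqrt M ^ 2 * ∫ x : EuclideanSpace ℝ (Fin n), Real.exp (-Uh h ρ (pq t x)) := by
    rw [Real.sq_sqrt hM.le]
    have h2 := hmo h hh hh1 t
    have e1 : ∀ (g : EuclideanSpace ℝ (Fin n) → ℝ), (∀ x, 0 ≤ g x) →
        Integrable (fun x => g x * Real.exp (-Uh h ρ (pq t x))) →
        ENNReal.ofReal (∫ x, g x * Real.exp (-Uh h ρ (pq t x))) =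
        ENNReal.ofReal (gc (Fin 1 ⊕ Fin n) h)⁻¹ * ∫⁻ x, ENNReal.ofReal (g x * zz h ρ (pq t x)) := by
      intro g hg0 hgi
      rw [ofReal_integral_eq_lintegral_ofReal hgi
        (Eventually.of_forall fun x => mul_nonneg (hg0 x) (Real.exp_pos _).le),
        ← lintegral_const_mul' _ _ ENNReal.ofReal_ne_top]
      refine lintegral_congr fun x => ?_
      rw [← ENNReal.ofReal_mul (by positivity), hZ]
      congr 1
      ring
    have e2 := e1 (fun x => ‖x‖ ^ 2) (fun x => by positivity) i2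
    have e3 := e1 (fun _ => 1) (fun x => zero_le_one) (by simpa using i1)
    simp only [one_mul] at e3
    have h4 : 0 ≤ ∫ x : EuclideanSpace ℝ (Fin n), Real.exp (-Uh h ρ (pq t x)) :=
      integral_nonneg fun x => (Real.exp_pos _).le
    refine (ENNReal.ofReal_le_ofReal_iff (by positivity)).1 ?_
    rw [ENNReal.ofReal_mul hM.le, e2, e3]
    calc ENNReal.ofReal (gc (Fin 1 ⊕ Fin n) h)⁻¹ *
          ∫⁻ x : EuclideanSpace ℝ (Fin n), ENNReal.ofReal (‖x‖ ^ 2 * zz h ρ (pq t x))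
        ≤ ENNReal.ofReal (gc (Fin 1 ⊕ Fin n) h)⁻¹ * (ENNReal.ofReal M *
          ∫⁻ x : EuclideanSpace ℝ (Fin n), ENNReal.ofReal (zz h ρ (pq t x))) := by gcongr
      _ = _ := by ring
  exact hgen n (Uh h ρ) hUc p3.conv _ (Real.sqrt_pos.2 hM) t i1 i2 hm φ hφ hφs

end Pool.Agent.Q38.EM
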