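import Pool.Agent.Q38.EM.Dbd
import Pool.Agent.Q193.EM.Fbb
import Pool.Agent.H212R2.KLS.R4

/-!
# The fibres over a compact interval, densities of bounded support
-/

set_option autoImplicit false

namespace Pool.Agent.Q38.EM

open MeasureTheory Set Filter Topology
open scoped ENNReal InnerProductSpace ContDiff
open Pool.Agent.H888R2.KT (LC zz gc)
open Pool.Agent.H212R2.KLS (mu Bdd)
open Pool.Agent.Q86.EM
open Pool.Agent.Q86.FIB (Sp EK spl Std oo lp CovF FibreP om dens vol fib pd sv gT gZ WIneq lin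
  lp_int lp_norm_sq norm_fderiv_sq comp_smooth)
open Pool.Agent.Q193.EM (var_cmp one_le_pw pt_norm pt_cont pt_comb lip_bd)

/-- continuous functions against a density of bounded support -/
theorem lc_int {κ : Type} [Fintype κ] {r : Eu κ → ℝ} (hr : LC r) {F : Eu κ → ℝ}
    (hF : Continuous F) : Integrable (fun z => F z * r z) := by
  obtain ⟨B, hB0, hB⟩ := lc_bdd hr
  obtain ⟨R, hR0, hR⟩ := lc_rad hr
  exact Pool.Agent.H212R2.KLS.R4aux.intg hr.meas hr.nonneg ⟨B, hB⟩ hR hF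

theorem int_cmp_d {n : ℕ} {r : Eu (Fin n) → ℝ} (hr : LC r) {Z : Eu (Fin n) → ℝ}
    (hZc : Continuous Z) (hZ : ∀ z, 0 < Z z) {η : ℝ}
    (hint : Integrable fun z => (1 + ‖z‖) ^ 4 * Z z)
    (hη : ∫ z, (1 + ‖z‖) ^ 4 * |Z z - r z| ≤ η)
    {F : Eu (Fin n) → ℝ} (hF : Continuous F) {c : ℝ} (hc : 0 ≤ c)
    (hb : ∀ z, |F z| ≤ c * (1 + ‖z‖) ^ 4) :
    Integrable (fun z => F z * Z z) ∧ |(∫ z, F z * Z z) - ∫ z, F z * r z| ≤ c * η := by
  have hFZ : Integrable (fun z => F z * Z z) := by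
    refine (hint.const_mul c).mono' (hF.mul hZc).aestronglyMeasurable (Eventually.of_forall fun z => ?_)
    rw [Real.norm_eq_abs, abs_mul, abs_of_pos (hZ z), ← mul_assoc]
    exact mul_le_mul_of_nonneg_right (hb z) (hZ z).le
  have hI : ∀ G : Eu (Fin n) → ℝ, Continuous G → Integrable (fun z => G z * r z) :=
    fun G hG => lc_int hr hG
  have hpc : Continuous fun z : Eu (Fin n) => (1 + ‖z‖) ^ 4 := by fun_prop
  have hJ : Integrable (fun z => (1 + ‖z‖) ^ 4 * |Z z - r z|) := by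
    refine ((hint.sub (hI _ hpc)).abs).congr (Eventually.of_forall fun z => ?_)
    show |(1 + ‖z‖) ^ 4 * Z z - (1 + ‖z‖) ^ 4 * r z| = _
    rw [← mul_sub, abs_mul, abs_of_nonneg (by positivity : (0 : ℝ) ≤ (1 + ‖z‖) ^ 4)]
  refine ⟨hFZ, ?_⟩
  rw [← integral_sub hFZ (hI F hF)]
  refine (abs_integral_le_integral_abs).trans ?_
  calc ∫ z, |F z * Z z - F z * r z|
      ≤ ∫ z, c * ((1 + ‖z‖) ^ 4 * |Z z - r z|) := by
        refine integral_mono ((hFZ.sub (hI F hF)).abs) (hJ.const_mul c) fun z => ?_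
        show |F z * Z z - F z * r z| ≤ _
        rw [← mul_sub, abs_mul, ← mul_assoc]
        exact mul_le_mul_of_nonneg_right (hb z) (abs_nonneg _)
    _ = c * ∫ z, (1 + ‖z‖) ^ 4 * |Z z - r z| := integral_const_mul _ _
    _ ≤ c * η := mul_le_mul_of_nonneg_left hη hc

theorem abs_int_le {n : ℕ} {r : Eu (Fin n) → ℝ} (hr : LC r) {F : Eu (Fin n) → ℝ} {c : ℝ}
    (hb : ∀ z, r z ≠ 0 → |F z| ≤ c) (hi : Integrable r) : |∫ z, F z * r z| ≤ c * ∫ z, r z := by
  have h1 : ∀ z, ‖F z * r z‖ ≤ c * r z := by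
    intro z
    rw [Real.norm_eq_abs, abs_mul, abs_of_nonneg (hr.nonneg z)]
    by_cases h0 : r z = 0
    · rw [h0]
      simp
    · exact mul_le_mul_of_nonneg_right (hb z h0) (hr.nonneg z)
  have h2 := norm_integral_le_of_norm_le (hi.const_mul c) (Eventually.of_forall h1)
  rw [integral_const_mul, Real.norm_eq_abs] at h2
  exact h2

theorem vv_cmp_d {n : ℕ} {r : Eu (Fin n) → ℝ} (hr : LC r) {Z : Eu (Fin n) → ℝ}
    (hZc : Continuous Z) (hZ : ∀ z, 0 < Z z) {η : ℝ}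
    (hint : Integrable fun z => (1 + ‖z‖) ^ 4 * Z z)
    (hη : ∫ z, (1 + ‖z‖) ^ 4 * |Z z - r z| ≤ η)
    {v R : ℝ} (hv : 0 < v) (hvS : v ≤ ∫ z, r z) (hη0 : 0 ≤ η) (hη2 : η ≤ v / 2)
    (hR : 1 ≤ R) (hSR : ∀ z, r z ≠ 0 → ‖z‖ ≤ R)
    {F : Eu (Fin n) → ℝ} (hF : Continuous F) {L : ℝ} (hL : 0 ≤ L)
    (hb : ∀ z, |F z| ≤ L * (1 + ‖z‖)) :
    |((∫ z, F z ^ 2 * Z z) / (∫ z, Z z) - ((∫ z, F z * Z z) / (∫ z, Z z)) ^ 2) -
      ((∫ z, F z ^ 2 * r z) / (∫ z, r z) - ((∫ z, F z * r z) / (∫ z, r z)) ^ 2)| ≤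
      60 * R ^ 2 / v * η * L ^ 2 := by
  have hri : Integrable r := by
    have := lc_int hr (F := fun _ => 1) continuous_const
    simpa using this
  have b1 : ∀ z : Eu (Fin n), (1 + ‖z‖) ≤ (1 + ‖z‖) ^ 4 := fun z => le_self_pow₀ (one_le_pw z) (by norm_num)
  have b2 : ∀ z : Eu (Fin n), (1 + ‖z‖) ^ 2 ≤ (1 + ‖z‖) ^ 4 := fun z =>
    pow_le_pow_right₀ (one_le_pw z) (by norm_num)
  have b0 : ∀ z : Eu (Fin n), 1 ≤ (1 + ‖z‖) ^ 4 := fun z => one_le_pow₀ (one_le_pw z)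
  have c1 := (int_cmp_d hr hZc hZ hint hη hF hL (fun z => (hb z).trans
    (mul_le_mul_of_nonneg_left (b1 z) hL))).2
  have c2 := (int_cmp_d hr hZc hZ hint hη (F := fun z => F z ^ 2) (hF.pow 2) (c := L ^ 2)
    (by positivity) (fun z => by
    have h1 : |F z ^ 2| ≤ (L * (1 + ‖z‖)) ^ 2 := by
      rw [abs_pow]
      exact pow_le_pow_left₀ (abs_nonneg _) (hb z) 2
    refine h1.trans ?_
    rw [mul_pow]
    exact mul_le_mul_of_nonneg_left (b2 z) (by positivity))).2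
  have c0 := (int_cmp_d hr hZc hZ hint hη (F := fun _ => 1) continuous_const (c := 1) zero_le_one
    (fun z => by
      rw [abs_one, one_mul]
      exact b0 z)).2
  simp only [one_mul] at c0
  have hbS : ∀ z, r z ≠ 0 → |F z| ≤ 2 * R * L := by
    intro z hz
    have h1 := hSR z hz
    calc |F z| ≤ L * (1 + ‖z‖) := hb z
      _ ≤ L * (2 * R) := mul_le_mul_of_nonneg_left (by linarith) hL
      _ = 2 * R * L := by ring
  have d1 : |∫ z, F z * r z| ≤ 2 * R * L * ∫ z, r z := abs_int_le hr hbS hri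
  have d2 : |∫ z, F z ^ 2 * r z| ≤ (2 * R * L) ^ 2 * ∫ z, r z :=
    abs_int_le (F := fun z => F z ^ 2) hr (fun z hz => by
      rw [abs_pow]
      exact pow_le_pow_left₀ (abs_nonneg _) (hbS z hz) 2) hri
  exact var_cmp hv hvS hη0 hη2 hR hL c2 c1 c0 d2 d1

theorem dfb (h1 : S_EMPc) (h2 : S_DSG) (h3 : S_DSC) (h4 : S_DPT) (h5 : S_DBD) : S_DFB := by
  have _ := h5
  obtain ⟨C, hC, hemp⟩ := h1
  refine ⟨max C 1, le_max_right _ _, ?_⟩
  intro n ρ hρ k hk a b hab hqa hqb hkls ε hε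
  obtain ⟨hsec, v, hv, hvol⟩ := h2 n ρ hρ a b hab hqa hqb
  obtain ⟨R₀, -, hR₀⟩ := lc_rad hρ
  obtain ⟨R, hRdef⟩ : ∃ R : ℝ, R = max R₀ 1 := ⟨_, rfl⟩
  have hR : 1 ≤ R := by rw [hRdef]; exact le_max_right _ _
  have hDR : ∀ x, ρ x ≠ 0 → ‖x‖ ≤ R := fun x hx => by
    rw [hRdef]
    refine le_trans ?_ (le_max_left _ _)
    by_contra hc
    exact hx (hR₀ x (not_le.1 hc))
  obtain ⟨K, hK⟩ : ∃ K : ℝ, K = 60 * R ^ 2 / v := ⟨_, rfl⟩
  have hK0 : 0 < K := by rw [hK]; positivity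
  obtain ⟨η, hηd⟩ : ∃ η : ℝ, η = min (v / 2) (ε / ((k + 1) * K)) := ⟨_, rfl⟩
  have hη0 : 0 < η := by
    rw [hηd]
    refine lt_min (by positivity) (by positivity)
  have hη2 : η ≤ v / 2 := by rw [hηd]; exact min_le_left _ _
  have hη3 : (k + 1) * K * η ≤ ε := by
    have : η ≤ ε / ((k + 1) * K) := by rw [hηd]; exact min_le_right _ _
    rwa [le_div_iff₀ (by positivity), mul_comm] at this
  obtain ⟨A₀, hA₀, hslc⟩ := h3 n ρ hρ a b hab hqa hqb η hη0
  refine ⟨A₀, hA₀, ?_⟩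
  intro h hh0 hA t ht σ hσ hcov φ hφ hφs
  obtain ⟨hint, hle⟩ := hslc h hh0 hA t ht
  obtain ⟨hcb, -⟩ := hsec t ht
  have hvt := hvol t ht
  obtain ⟨r, hrd⟩ : ∃ r : Eu (Fin n) → ℝ, r = fun z => ρ (pt n t z) := ⟨_, rfl⟩
  have hSR : ∀ z, r z ≠ 0 → ‖z‖ ≤ R := fun z hz => by
    rw [hrd] at hz
    exact (pt_norm n t z).trans (hDR _ hz)
  have hklt := hkls t ht
  rw [← hrd] at hcb hklt
  have hvt' : v ≤ ∫ z, r z := by
    rw [hrd]
    exact hvt
  have hri : Integrable r := by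
    have := lc_int hcb (F := fun _ => 1) continuous_const
    simpa using this
  have hr0 : 0 < ∫ z, r z := hv.trans_le hvt'
  obtain ⟨U, hUd⟩ : ∃ U : EK 1 n → ℝ, U = Uh h ρ := ⟨_, rfl⟩
  rw [← hUd] at hint hle hcov ⊢
  have hU : Pot U := by
    rw [hUd]
    exact (h4 _ ρ hρ h hh0).2.2.1
  obtain ⟨Z, hZ⟩ : ∃ Z : Eu (Fin n) → ℝ, Z = fun z => Real.exp (-U (pt n t z)) := ⟨_, rfl⟩
  have hUc : Continuous U := hU.htg.1.continuous
  have hZc : Continuous Z := by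
    rw [hZ]
    exact Real.continuous_exp.comp (hUc.comp (pt_cont n t)).neg
  have hZpos : ∀ z, 0 < Z z := fun z => by rw [hZ]; exact Real.exp_pos _
  have hint' : Integrable fun z => (1 + ‖z‖) ^ 4 * Z z := by rw [hZ]; exact hint
  have hle' : ∫ z, (1 + ‖z‖) ^ 4 * |Z z - r z| ≤ η := by
    rw [hZ, hrd]; exact hle
  have hcmp := fun {F : Eu (Fin n) → ℝ} (hF : Continuous F) {c : ℝ} (hc : 0 ≤ c)
    (hb : ∀ z, |F z| ≤ c * (1 + ‖z‖) ^ 4) => int_cmp_d hcb hZc hZpos hint' hle' hF hc hb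
  have hvv := fun {F : Eu (Fin n) → ℝ} (hF : Continuous F) {L : ℝ} (hL : 0 ≤ L)
    (hb : ∀ z, |F z| ≤ L * (1 + ‖z‖)) =>
      vv_cmp_d hcb hZc hZpos hint' hle' hv hvt' hη0.le hη2 hR hSR hF hL hb
  rw [← hK] at hvv
  have b0 : ∀ z : Eu (Fin n), 1 ≤ (1 + ‖z‖) ^ 4 := fun z => one_le_pow₀ (one_le_pw z)
  -- the mass
  have hZi : Integrable Z := by
    have := (hcmp (F := fun _ => 1) continuous_const (c := 1) zero_le_one (fun z => by
      rw [abs_one, one_mul]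
      exact b0 z)).1
    simpa using this
  obtain ⟨m, hm⟩ : ∃ m : ℝ, m = ∫ z, Z z := ⟨_, rfl⟩
  have hm0 : 0 < m := by
    rw [hm]
    refine (integral_pos_iff_support_of_nonneg (fun z => (hZpos z).le) hZi).2 ?_
    have : Function.support Z = univ := by
      ext z
      simp [(hZpos z).ne']
    rw [this]
    exact Measure.measure_univ_pos.2 (NeZero.ne _)
  rw [← hm] at hvv
  have hlp : ∀ H : Sp n → ℝ, ∫ z, H z * Real.exp (-onSp U (oo t, z)) = ∫ x, H (lp n x) * Z x := by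
    intro H
    have := lp_int (m := n) (fun z => H z * Real.exp (-onSp U (oo t, z)))
    rw [← this, hZ]
    rfl
  have hdens : dens (onSp U) (oo t) = m := by
    unfold dens
    have := hlp (fun _ => 1)
    simp only [one_mul] at this
    rw [this, hm]
  -- the covariance
  have hCV : CVd r (σ + K * η) := by
    intro θ
    have hF : Continuous fun x : Eu (Fin n) => ⟪θ, x⟫_ℝ := continuous_const.inner continuous_id
    have hb : ∀ z : Eu (Fin n), |⟪θ, z⟫_ℝ| ≤ ‖θ‖ * (1 + ‖z‖) := fun z => by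
      refine (abs_real_inner_le_norm θ z).trans ?_
      have := norm_nonneg θ
      have := norm_nonneg z
      nlinarith
    have hc := abs_le.1 (hvv hF (norm_nonneg θ) hb)
    have hcv := hcov (lp n θ)
    rw [hdens] at hcv
    unfold fib at hcv
    simp only at hcv
    rw [hlp (fun z => (∑ i, lp n θ i * z i) ^ 2), hlp (fun z => ∑ i, lp n θ i * z i), ← lp_norm_sq] at hcv
    have hin : ∀ x : Eu (Fin n), ∑ i, lp n θ i * lp n x i = ⟪θ, x⟫_ℝ := by
      intro x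
      rw [PiLp.inner_apply]
      refine Finset.sum_congr rfl fun i _ => ?_
      show θ i * x i = _
      simp [mul_comm]
    simp_rw [hin] at hcv
    have h5 : (∫ z, ⟪θ, z⟫_ℝ ^ 2 * Z z) / m - ((∫ z, ⟪θ, z⟫_ℝ * Z z) / m) ^ 2 ≤ σ * ‖θ‖ ^ 2 := by
      have h6 : (∫ z, ⟪θ, z⟫_ℝ ^ 2 * Z z) / m - ((∫ z, ⟪θ, z⟫_ℝ * Z z) / m) ^ 2 =
          (m * (∫ z, ⟪θ, z⟫_ℝ ^ 2 * Z z) - (∫ z, ⟪θ, z⟫_ℝ * Z z) ^ 2) / m ^ 2 := by
        field_simp
      rw [h6, div_le_iff₀ (by positivity)]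
      exact hcv
    have h7 := hc.1
    have h8 : (∫ z, ⟪θ, z⟫_ℝ ^ 2 * r z) / (∫ z, r z) - ((∫ z, ⟪θ, z⟫_ℝ * r z) / ∫ z, r z) ^ 2 =
        ((∫ z, r z) * (∫ z, ⟪θ, z⟫_ℝ ^ 2 * r z) - (∫ z, ⟪θ, z⟫_ℝ * r z) ^ 2) /
          (∫ z, r z) ^ 2 := by
      field_simp
    have h9 : ((∫ z, r z) * (∫ z, ⟪θ, z⟫_ℝ ^ 2 * r z) - (∫ z, ⟪θ, z⟫_ℝ * r z) ^ 2) /
          (∫ z, r z) ^ 2 ≤ (σ + K * η) * ‖θ‖ ^ 2 := by
      rw [← h8]
      linarith
    rwa [div_le_iff₀ (by positivity)] at h9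
  have hPI := hklt _ hCV
  obtain ⟨D₁, hD₁⟩ : ∃ D₁ : ℝ, D₁ = k * (σ + K * η) + K * η := ⟨_, rfl⟩
  have hD₁0 : 0 ≤ D₁ := by rw [hD₁]; positivity
  have hD₁le : D₁ ≤ k * σ + ε := by
    rw [hD₁]
    nlinarith
  -- the density
  obtain ⟨g, hg⟩ : ∃ g : Eu (Fin n) → ℝ, g = fun z => Real.exp (-U (pt n t z) - Real.log m) := ⟨_, rfl⟩
  have hgZ : ∀ z, g z = Z z / m := fun z => by
    rw [hg, hZ]
    simp only
    rw [Real.exp_sub, Real.exp_log hm0]
  have hgc : Continuous g := by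
    rw [hg]
    exact Real.continuous_exp.comp ((hUc.comp (pt_cont n t)).neg.sub continuous_const)
  have hgi : ∀ H : Eu (Fin n) → ℝ, ∫ x, H x * g x = (∫ x, H x * Z x) / m := by
    intro H
    simp_rw [hgZ, ← mul_div_assoc]
    exact integral_div _ _
  have hgI : ∀ H : Eu (Fin n) → ℝ, Integrable (fun x => H x * Z x) → Integrable (fun x => H x * g x) := by
    intro H hH
    simp_rw [hgZ, ← mul_div_assoc]
    exact hH.div_const _
  have key := hemp (Fin n) g (fun x => by rw [hg]; exact Real.exp_pos _) hgc (fun x y s hs0 hs1 => by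
      rw [hg]
      simp only
      rw [← Real.exp_mul, ← Real.exp_mul, ← Real.exp_add]
      refine Real.exp_le_exp.2 ?_
      rw [pt_comb]
      have h5 := hU.conv.2 (mem_univ (pt n t x)) (mem_univ (pt n t y)) (by linarith : 0 ≤ 1 - s) hs0.le
        (by ring)
      simp only [smul_eq_mul] at h5
      nlinarith) (by
      refine hgI (fun x => (1 + ‖x‖) ^ 2) (hcmp (by fun_prop) (c := 1) zero_le_one fun z => ?_).1
      rw [abs_of_nonneg (by positivity), one_mul]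
      exact pow_le_pow_right₀ (one_le_pw z) (by norm_num)) (by
      have := hgi (fun _ => 1)
      simp only [one_mul] at this
      rw [this, ← hm, div_self hm0.ne']) D₁ (fun f hf hf1 => by
      obtain ⟨F, hFd⟩ : ∃ F : Eu (Fin n) → ℝ, F = fun z => f z - f 0 := ⟨_, rfl⟩
      have hFC : ContDiff ℝ 1 F := by rw [hFd]; exact hf.sub contDiff_const
      have hFb : ∀ z, |F z| ≤ 1 * (1 + ‖z‖) := fun z => by rw [hFd]; exact lip_bd hf hf1 z
      have hc := abs_le.1 (hvv hFC.continuous zero_le_one hFb)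
      have hFi := (hcmp hFC.continuous (c := 1) zero_le_one fun z => (hFb z).trans
        (mul_le_mul_of_nonneg_left (le_self_pow₀ (one_le_pw z) (by norm_num)) zero_le_one)).1
      have hF2i := (hcmp (F := fun z => F z ^ 2) (hFC.continuous.pow 2) (c := 1) zero_le_one fun z => by
        rw [abs_pow, one_mul]
        refine (pow_le_pow_left₀ (abs_nonneg _) (hFb z) 2).trans ?_
        rw [one_mul]
        exact pow_le_pow_right₀ (one_le_pw z) (by norm_num)).1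
      have hV : (∫ z, F z ^ 2 * r z) / (∫ z, r z) - ((∫ z, F z * r z) / ∫ z, r z) ^ 2 ≤
          k * (σ + K * η) := by
        have h5 : |∫ x, ‖fderiv ℝ F x‖ ^ 2 * r x| ≤ 1 * ∫ z, r z :=
          abs_int_le (F := fun x => ‖fderiv ℝ F x‖ ^ 2) hcb (fun z _ => by
            have h7 : fderiv ℝ F z = fderiv ℝ f z := by
              rw [hFd]
              exact fderiv_sub_const _
            rw [h7, abs_pow, abs_norm]
            exact pow_le_one₀ (norm_nonneg _) (hf1 z)) hri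
        have h6 := hPI F hFC
        have h8 : 0 ≤ k * (σ + K * η) := by positivity
        have h9 : (∫ z, F z ^ 2 * r z) / (∫ z, r z) - ((∫ z, F z * r z) / ∫ z, r z) ^ 2 =
            ((∫ z, r z) * (∫ z, F z ^ 2 * r z) - (∫ z, F z * r z) ^ 2) / (∫ z, r z) ^ 2 := by
          field_simp
        rw [h9, div_le_iff₀ (by positivity)]
        refine h6.trans ?_
        have h10 : ∫ x, ‖fderiv ℝ F x‖ ^ 2 * r x ≤ ∫ z, r z := by
          have := (abs_le.1 h5).2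
          linarith
        calc k * (σ + K * η) * (∫ z, r z) * ∫ x, ‖fderiv ℝ F x‖ ^ 2 * r x
            ≤ k * (σ + K * η) * (∫ z, r z) * ∫ z, r z :=
              mul_le_mul_of_nonneg_left h10 (mul_nonneg h8 hr0.le)
          _ = _ := by ring
      have e1 : ∫ x, f x * g x = (∫ x, F x * Z x) / m + f 0 := by
        have h5 : ∀ x, f x * g x = F x * g x + f 0 * g x := fun x => by rw [hFd]; ring
        have h6 : ∫ x, f 0 * g x = f 0 := by
          rw [hgi (fun _ => f 0), integral_const_mul, ← hm, mul_div_assoc, div_self hm0.ne', mul_one]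
        simp_rw [h5]
        rw [integral_add (hgI F hFi) (hgI (fun _ => f 0) (hZi.const_mul _)), h6, hgi]
      have e2 : ∫ x, f x ^ 2 * g x = (∫ x, F x ^ 2 * Z x) / m + 2 * f 0 * ((∫ x, F x * Z x) / m) + f 0 ^ 2 := by
        have h5 : ∀ x, f x ^ 2 * g x = (F x ^ 2 * g x + 2 * f 0 * (F x * g x)) + f 0 ^ 2 * g x := fun x => by
          rw [hFd]; ring
        have h6 : ∫ x, f 0 ^ 2 * g x = f 0 ^ 2 := by
          rw [hgi (fun _ => f 0 ^ 2), integral_const_mul, ← hm, mul_div_assoc, div_self hm0.ne', mul_one]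
        have i1 : Integrable (fun x => F x ^ 2 * g x) := hgI (fun x => F x ^ 2) hF2i
        have i2 : Integrable (fun x => 2 * f 0 * (F x * g x)) := (hgI F hFi).const_mul _
        have i3 : Integrable (fun x => f 0 ^ 2 * g x) := hgI (fun _ => f 0 ^ 2) (hZi.const_mul _)
        have i12 : Integrable (fun x => F x ^ 2 * g x + 2 * f 0 * (F x * g x)) := i1.add i2
        simp_rw [h5]
        rw [integral_add i12 i3, integral_add i1 i2, h6, integral_const_mul, hgi F, hgi (fun x => F x ^ 2)]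
      rw [e1, e2, hD₁]
      have := hc.2
      rw [one_pow, mul_one] at this
      nlinarith) (fun x => φ (lp n x + 0)) (comp_smooth hφ 0) (by
      have h5 : (fun x : Eu (Fin n) => φ (lp n x + 0)) = φ ∘ (lp n).toHomeomorph := by
        funext x
        simp
      rw [h5]
      exact hφs.comp_homeomorph _)
  simp_rw [norm_fderiv_sq hφ] at key
  rw [hgi (fun x => φ (lp n x + 0) ^ 2), hgi (fun x => φ (lp n x + 0)),
    hgi (fun x => ∑ i, (pd (sv i) φ (lp n x + 0)) ^ 2)] at key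
  simp only [add_zero] at key
  rw [hdens, hlp (fun z => φ z ^ 2), hlp φ, hlp (fun z => ∑ i, (pd (sv i) φ z) ^ 2)]
  obtain ⟨a1, ha1⟩ : ∃ a1, a1 = ∫ x, φ (lp n x) ^ 2 * Z x := ⟨_, rfl⟩
  obtain ⟨a2, ha2⟩ : ∃ a2, a2 = ∫ x, φ (lp n x) * Z x := ⟨_, rfl⟩
  obtain ⟨a3, ha3⟩ : ∃ a3, a3 = ∫ x, (∑ i, (pd (sv i) φ (lp n x)) ^ 2) * Z x := ⟨_, rfl⟩
  have ha30 : 0 ≤ a3 := by
    rw [ha3]
    exact integral_nonneg fun x => mul_nonneg (Finset.sum_nonneg fun _ _ => sq_nonneg _) (hZpos x).le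
  rw [← ha1, ← ha2, ← ha3] at key ⊢
  have k2 : m * a1 - a2 ^ 2 ≤ C * D₁ * m * a3 := by
    have h5 := mul_le_mul_of_nonneg_left key (by positivity : 0 ≤ m ^ 2)
    have h6 : m ^ 2 * (a1 / m - (a2 / m) ^ 2) = m * a1 - a2 ^ 2 := by
      field_simp
    have h7 : m ^ 2 * (C * D₁ * (a3 / m)) = C * D₁ * m * a3 := by
      field_simp
    rw [h6, h7] at h5
    exact h5
  refine k2.trans ?_
  have k3 : C * D₁ ≤ max C 1 * (k * σ + ε) :=
    mul_le_mul (le_max_left _ _) hD₁le hD₁0 (zero_le_one.trans (le_max_right _ _))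
  have k4 : 0 ≤ m * a3 := by positivity
  calc C * D₁ * m * a3 = C * D₁ * (m * a3) := by ring
    _ ≤ max C 1 * (k * σ + ε) * (m * a3) := mul_le_mul_of_nonneg_right k3 k4
    _ = _ := by ring

end Pool.Agent.Q38.EM
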