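import Pool.Agent.Q38.EM.Dbd
import Pool.Agent.Q124.EM.TLB

/-!
# Tails of the first coordinate, densities of bounded support
-/

set_option autoImplicit false

namespace Pool.Agent.Q38.EM

open MeasureTheory Set Filter Topology
open scoped ENNReal InnerProductSpace ContDiff
open Pool.Agent.H888R2.KT (LC zz gc)
open Pool.Agent.H212R2.KLS (mu Bdd)
open Pool.Agent.Q86.EM
open Pool.Agent.Q86.FIB
open Pool.Agent.Q124.EM (nW onSp_spl spl_integrable_iff tc_eq tc_cont G_nW null_tc)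

/-- the facts on the normalised potential -/
theorem std_p {n : ℕ} {U : EK 1 n → ℝ} (hU : Pot U) : 0 < ∫ y, Real.exp (-U y) ∧ Std (nW U) ∧
      ∫ t, dens (nW U) t = 1 ∧ ∀ F : Sp 1 × Sp n → ℝ, ∫ x, F x * Real.exp (-nW U x) ∂(vol 1 n) =
        (∫ y, F (spl 1 n y) * Real.exp (-U y)) / ∫ y, Real.exp (-U y) := by
  have i1 := hU.int
  have hZ : 0 < ∫ y, Real.exp (-U y) := by
    rw [integral_pos_iff_support_of_nonneg (fun z => (Real.exp_pos _).le) i1]
    have h2 : Function.support (fun z => Real.exp (-U z)) = univ := by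
      ext z
      simp [(Real.exp_pos _).ne']
    rw [h2]
    exact isOpen_univ.measure_pos _ ⟨0, mem_univ _⟩
  have hexp : ∀ y, Real.exp (-nW U (spl 1 n y)) =
      Real.exp (-U y) / ∫ y, Real.exp (-U y) := by
    intro y
    unfold nW
    rw [onSp_spl, neg_add, Real.exp_add, Real.exp_neg (Real.log _), Real.exp_log hZ]
    rfl
  have hF : ∀ F : Sp 1 × Sp n → ℝ, ∫ x, F x * Real.exp (-nW U x) ∂(vol 1 n) =
        (∫ y, F (spl 1 n y) * Real.exp (-U y)) / ∫ y, Real.exp (-U y) := by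
    intro F
    rw [← spl_int (fun x => F x * Real.exp (-nW U x)), ← integral_div]
    refine integral_congr_ae (Eventually.of_forall fun y => ?_)
    simp only
    rw [hexp]
    ring
  have hstd : Std (nW U) := by
    refine ⟨?_, ?_, ?_⟩
    · have h3 : Function.HasTemperateGrowth (onSp U) :=
        hU.htg.comp ((spl 1 n).symm : Sp 1 × Sp n →L[ℝ] EK 1 n).hasTemperateGrowth
      exact h3.add (Function.HasTemperateGrowth.const _)
    · have h3 : ConvexOn ℝ univ (onSp U) := by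
        have h4 := hU.conv.comp_linearMap ((spl 1 n).symm : Sp 1 × Sp n →L[ℝ] EK 1 n).toLinearMap
        exact h4
      exact h3.add (convexOn_const _ convex_univ)
    · rw [← spl_integrable_iff (fun x => Real.exp (-nW U x))]
      simp_rw [hexp]
      exact i1.div_const _
  refine ⟨hZ, hstd, ?_, hF⟩
  rw [hstd.tot_dens]
  have h3 := hF (fun _ => 1)
  simp_rw [one_mul] at h3
  rw [h3, div_self hZ.ne']

/-- uniform convergence -/
theorem unif_d (h1 : S_DLM) {κ : Type} [Fintype κ] {ρ : Eu κ → ℝ} (hρ : LC ρ)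
    {g : Eu κ → ℝ} {B : ℝ} {m : ℕ} (hg : Measurable g)
    (hb : ∀ x, |g x| ≤ B * (1 + ‖x‖) ^ m) {ε : ℝ} (hε : 0 < ε) :
    ∃ h₀ : ℝ, 0 < h₀ ∧ ∀ h : ℝ, 0 < h → h ≤ h₀ →
      |(∫ x, g x * Real.exp (-Uh h ρ x)) - ∫ x, g x * ρ x| ≤ ε := by
  by_contra hcon
  push Not at hcon
  have hpos : ∀ j : ℕ, (0 : ℝ) < 1 / (j + 1) := fun j => by positivity
  choose h hh hA hne using fun j : ℕ => hcon (1 / (j + 1)) (hpos j)
  have ht : Tendsto h atTop (𝓝 0) :=
    squeeze_zero (fun j => (hh j).le) hA tendsto_one_div_add_atTop_nhds_zero_nat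
  have h3 := (h1 κ ρ hρ h ht hh g B m hg hb).2
  obtain ⟨j, hj⟩ := (Metric.tendsto_nhds.1 h3 ε hε).exists
  rw [Real.dist_eq] at hj
  exact absurd (hne j) (not_lt.2 hj.le)

theorem int_mu {κ : Type} [Fintype κ] {ρ : Eu κ → ℝ} (hρ : LC ρ) {s : Set (Eu κ)}
    (hs : MeasurableSet s) :
    ∫ x, s.indicator (fun _ => (1 : ℝ)) x * ρ x = (mu ρ s).toReal := by
  haveI : IsFiniteMeasure (mu ρ) := ⟨lt_top_iff_ne_top.2 hρ.fin⟩
  have h1 := Pool.Agent.H888R2.KT.N5bx.conv hρ (s.indicator fun _ => (1 : ℝ))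
  rw [integral_indicator hs, setIntegral_const, smul_eq_mul, mul_one] at h1
  have h2 : (mu ρ s).toReal = ∫ x, ρ x * s.indicator (fun _ => (1 : ℝ)) x := h1
  rw [h2]
  simp_rw [mul_comm (ρ _)]

theorem mass_mu {κ : Type} [Fintype κ] {ρ : Eu κ → ℝ} (hρ : LC ρ) :
    0 < ∫ x, ρ x ∧ ∫ x, ρ x = (mu ρ univ).toReal := by
  have h1 := int_mu hρ MeasurableSet.univ
  simp only [indicator_univ, one_mul] at h1
  rw [h1]
  exact ⟨ENNReal.toReal_pos (fun h => hρ.ne (Measure.measure_univ_eq_zero.1 h)) hρ.fin, rfl⟩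

/-- a thin slab -/
theorem slab_d {n : ℕ} {ρ : EK 1 n → ℝ} (hρ : LC ρ) {h : EK 1 n → ℝ} (hh : Continuous h)
    (hz : ∀ c, volume {x | h x = c} = 0) {p q : EK 1 n} (hq : 0 < ρ q) (hpq : h q < h p) {ε : ℝ}
    (hε : 0 < ε) : ∃ a, a < h p ∧ (∃ x, 0 < ρ x ∧ h x < a) ∧
      (mu ρ {x | h x ≤ a}).toReal ≤ ε := by
  obtain ⟨R, hR0, hR⟩ := lc_rad hρ
  obtain ⟨M, hM⟩ := (isCompact_closedBall (0 : EK 1 n) R).exists_bound_of_continuousOn
    hh.continuousOn
  have hbd : BddBelow (h '' {x | 0 < ρ x}) := by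
    refine ⟨-M, ?_⟩
    rintro _ ⟨x, hx, rfl⟩
    have h1 : ‖x‖ ≤ R := by
      by_contra hc
      have h2 := hR x (not_le.1 hc)
      have h3 : 0 < ρ x := hx
      rw [h2] at h3
      exact lt_irrefl _ h3
    have h2 := hM x (by rwa [mem_closedBall_zero_iff])
    rw [Real.norm_eq_abs] at h2
    exact (abs_le.1 h2).1
  have hne : (h '' {x | 0 < ρ x}).Nonempty := ⟨h q, q, hq, rfl⟩
  obtain ⟨α, hα⟩ : ∃ α, α = sInf (h '' {x | 0 < ρ x}) := ⟨_, rfl⟩
  have hmin : ∀ x, 0 < ρ x → α ≤ h x := fun x hx => by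
    rw [hα]
    exact csInf_le hbd ⟨x, hx, rfl⟩
  have hm : α < h p := lt_of_le_of_lt (hmin q hq) hpq
  set δ := h p - α with hδ
  have hδ0 : 0 < δ := by linarith
  set a : ℕ → ℝ := fun j => α + δ / (j + 2) with ha
  have hanti : Antitone a := by
    intro i j hij
    have h3 : (i : ℝ) ≤ j := by exact_mod_cast hij
    have h4 : (0 : ℝ) < i + 2 := by positivity
    simp only [ha]
    have h5 : δ / (j + 2) ≤ δ / (i + 2) := div_le_div_of_nonneg_left hδ0.le h4 (by linarith)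
    linarith
  have hlim : Tendsto a atTop (𝓝 α) := by
    have h3 : Tendsto (fun j : ℕ => δ / ((j : ℝ) + 2)) atTop (𝓝 0) :=
      tendsto_const_nhds.div_atTop (tendsto_atTop_add_const_right _ _
        tendsto_natCast_atTop_atTop)
    simpa using h3.const_add α
  have hms : ∀ j, NullMeasurableSet {x | h x ≤ a j} (mu ρ) := fun j =>
    (measurableSet_le hh.measurable measurable_const).nullMeasurableSet
  have hsa : Antitone (fun j => {x | h x ≤ a j}) := fun i j hij x hx =>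
    le_trans (show h x ≤ a j from hx) (hanti hij)
  have hfin : ∃ i, mu ρ {x | h x ≤ a i} ≠ ⊤ :=
    ⟨0, ((measure_mono (subset_univ _)).trans_lt (lt_top_iff_ne_top.2 hρ.fin)).ne⟩
  have h3 := tendsto_measure_iInter_atTop hms hsa hfin
  have h4 : mu ρ (⋂ j, {x | h x ≤ a j}) = 0 := by
    have h5 : (⋂ j, {x | h x ≤ a j}) = {x | h x ≤ α} := by
      ext x
      rw [mem_iInter]
      constructor
      · intro hx
        exact ge_of_tendsto' hlim fun j => hx j
      · intro hx j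
        have h6 : 0 < δ / ((j : ℝ) + 2) := by positivity
        have h7 : h x ≤ α := hx
        change h x ≤ α + δ / ((j : ℝ) + 2)
        linarith
    have hmm : MeasurableSet {x | h x ≤ α} := measurableSet_le hh.measurable measurable_const
    rw [h5, mu, withDensity_apply _ hmm, lintegral_eq_zero_iff hρ.meas.ennreal_ofReal,
      EventuallyEq, ae_restrict_iff' hmm]
    filter_upwards [measure_eq_zero_iff_ae_notMem.1 (hz α)] with x hx hx2
    by_contra hc
    have h8 : 0 < ρ x := by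
      by_contra hc2
      exact hc (by simp [not_lt.1 hc2])
    exact hx (le_antisymm hx2 (hmin x h8))
  rw [h4] at h3
  have h6 := (ENNReal.tendsto_toReal ENNReal.zero_ne_top).comp h3
  rw [ENNReal.toReal_zero] at h6
  obtain ⟨j, hj⟩ := (h6.eventually (Iio_mem_nhds hε)).exists
  have h7 : 0 < δ / ((j : ℝ) + 2) := by positivity
  refine ⟨a j, ?_, ?_, le_of_lt hj⟩
  · simp only [ha]
    have h7 : δ / (j + 2) < δ := by
      rw [div_lt_iff₀ (by positivity)]
      have : (0 : ℝ) ≤ j := Nat.cast_nonneg j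
      nlinarith
    linarith
  · obtain ⟨_, ⟨x, hx, rfl⟩, hx2⟩ := exists_lt_of_csInf_lt hne
      (show sInf (h '' {x | 0 < ρ x}) < a j by
        rw [← hα]
        simp only [ha]
        linarith)
    exact ⟨x, hx, hx2⟩

/-- the mass of a half space -/
theorem half_d (h1 : S_DLM) (h2 : S_DPT) {n : ℕ} {ρ : EK 1 n → ℝ} (hρ : LC ρ) {J : Set ℝ}
    (hJ : MeasurableSet J) {τ : ℝ} (hτ : 0 < τ)
    (hv : (mu ρ {x | tc x ∈ J}).toReal ≤ τ / 2 * ∫ x, ρ x) :
    ∃ h₀ : ℝ, 0 < h₀ ∧ ∀ h : ℝ, 0 < h → h ≤ h₀ → ∫ u in J, dd (nW (Uh h ρ)) u ≤ τ := by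
  obtain ⟨hV, -⟩ := mass_mu hρ
  set V := ∫ x, ρ x with hVd
  set ε := τ * V / (2 * (1 + τ)) with hε
  have hε0 : 0 < ε := by positivity
  have hgm : Measurable (fun x : EK 1 n => J.indicator (fun _ => (1 : ℝ)) (tc x)) :=
    (measurable_const.indicator hJ).comp tc_cont.measurable
  obtain ⟨h₁, hh₁, H1⟩ := unif_d h1 hρ (g := fun _ => 1) (B := 1) (m := 0)
    measurable_const (fun x => by simp) hε0
  obtain ⟨h₂, hh₂, H2⟩ := unif_d h1 hρ
    (g := fun x : EK 1 n => J.indicator (fun _ => (1 : ℝ)) (tc x)) (B := 1) (m := 0)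
    hgm (fun x => by
      by_cases hx : tc x ∈ J
      · rw [indicator_of_mem hx]; simp
      · rw [indicator_of_notMem hx]; simp) hε0
  refine ⟨min h₁ h₂, lt_min hh₁ hh₂, fun h hh hle => ?_⟩
  have e1 := H1 h hh (hle.trans (min_le_left _ _))
  have e2 := H2 h hh (hle.trans (min_le_right _ _))
  obtain ⟨-, -, hP, -⟩ := h2 _ ρ hρ h hh
  obtain ⟨hZ, hstd, -, hF⟩ := std_p hP
  simp only [one_mul] at e1
  have e4 : ∫ x, J.indicator (fun _ => (1 : ℝ)) (tc x) * ρ x = (mu ρ {x | tc x ∈ J}).toReal := by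
    have hmJ : MeasurableSet {x : EK 1 n | tc x ∈ J} := tc_cont.measurable hJ
    rw [← int_mu hρ hmJ]
    refine integral_congr_ae (Eventually.of_forall fun x => ?_)
    simp only
    by_cases hx : tc x ∈ J
    · rw [indicator_of_mem hx, indicator_of_mem (show x ∈ {x | tc x ∈ J} from hx)]
    · rw [indicator_of_notMem hx, indicator_of_notMem (show x ∉ {x | tc x ∈ J} from hx)]
  rw [e4] at e2
  rw [G_nW hstd hJ, hF (fun x => J.indicator (fun _ => (1 : ℝ)) (x.1 0))]
  rw [div_le_iff₀ hZ]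
  have e5 := (abs_le.1 e1).1
  have e6 := (abs_le.1 e2).2
  have e7 : ε * (1 + τ) = τ * V / 2 := by
    rw [hε]
    field_simp
  have e8 : ∫ y : EK 1 n, J.indicator (fun _ => (1 : ℝ)) ((spl 1 n y).1 0) * Real.exp (-Uh h ρ y) =
      ∫ y : EK 1 n, J.indicator (fun _ => (1 : ℝ)) (tc y) * Real.exp (-Uh h ρ y) := rfl
  rw [e8]
  rw [← hVd] at e5
  nlinarith

/-- there are points of positivity on both sides -/
theorem sides_d {n : ℕ} {ρ : EK 1 n → ℝ} (hρ : LC ρ) : ∃ p, 0 < ρ p ∧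
    (∃ q, 0 < ρ q ∧ tc q < tc p) ∧ ∃ q, 0 < ρ q ∧ tc p < tc q := by
  have hint : (interior {x | 0 < ρ x}).Nonempty := by
    by_contra hc
    rw [not_nonempty_iff_eq_empty] at hc
    have h1 : (volume : Measure (EK 1 n)) (frontier {x | 0 < ρ x}) = 0 :=
      (pos_convex hρ).addHaar_frontier _
    have h2 : volume {x | 0 < ρ x} = 0 := by
      refine measure_mono_null ?_ h1
      rw [frontier, hc, diff_empty]
      exact subset_closure
    apply hρ.ne
    unfold mu
    rw [withDensity_eq_zero_iff hρ.meas.ennreal_ofReal.aemeasurable]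
    filter_upwards [measure_eq_zero_iff_ae_notMem.1 h2] with x hx
    have h3 : ρ x ≤ 0 := not_lt.1 hx
    simp [h3]
  obtain ⟨p, hp⟩ := hint
  have hpD : 0 < ρ p := (interior_subset hp : p ∈ {x | 0 < ρ x})
  set e : EK 1 n := EuclideanSpace.single (Sum.inl 0) 1 with he
  have h1 : Continuous fun s : ℝ => p + s • e := by fun_prop
  have h2 : Tendsto (fun s : ℝ => p + s • e) (𝓝 0) (𝓝 p) := by
    have := h1.tendsto 0
    simpa using this
  have h3 : ∀ᶠ s in 𝓝 (0 : ℝ), p + s • e ∈ {x | 0 < ρ x} :=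
    h2.eventually (mem_interior_iff_mem_nhds.1 hp)
  have h4 : ∀ s : ℝ, tc (p + s • e) = tc p + s := by
    intro s
    rw [tc_eq, tc_eq, map_add, map_smul, he, spl_single_inl]
    simp [tv, sv]
  obtain ⟨δ, hδ, h5⟩ := Metric.eventually_nhds_iff.1 h3
  refine ⟨p, hpD, ⟨p + (-(δ / 2)) • e, h5 ?_, ?_⟩, ⟨p + (δ / 2) • e, h5 ?_, ?_⟩⟩
  · rw [Real.dist_eq, sub_zero, abs_neg, abs_of_pos (by positivity)]
    linarith
  · rw [h4]
    linarith
  · rw [Real.dist_eq, sub_zero, abs_of_pos (by positivity)]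
    linarith
  · rw [h4]
    linarith

theorem dtl (h1 : S_DLM) (h2 : S_DPT) : S_DTL := by
  intro n ρ hρ τ hτ
  obtain ⟨p, -, ⟨q, hq, hqp⟩, ⟨q', hq', hpq'⟩⟩ := sides_d hρ
  obtain ⟨hV, -⟩ := mass_mu hρ
  have hε : 0 < τ / 2 * ∫ x, ρ x := by positivity
  obtain ⟨a, hap, hax, hav⟩ := slab_d hρ tc_cont null_tc (p := p) hq hqp hε
  obtain ⟨b, hbp, hbx, hbv⟩ := slab_d hρ (h := fun x => -tc x) tc_cont.neg (fun c => by
    have h3 : {x : EK 1 n | -tc x = c} = {x | tc x = -c} := by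
      ext x
      simp only [mem_ofPred_eq]
      constructor <;> intro h <;> linarith
    rw [h3]
    exact null_tc _) (p := p) hq' (neg_lt_neg hpq') hε
  obtain ⟨A₁, hA₁, H1⟩ := half_d h1 h2 hρ (J := Iic a) measurableSet_Iic hτ (by
    exact hav)
  obtain ⟨A₂, hA₂, H2⟩ := half_d h1 h2 hρ (J := Ioi (-b)) measurableSet_Ioi hτ (by
    refine le_trans ?_ hbv
    refine ENNReal.toReal_mono ?_ (measure_mono ?_)
    · exact ((measure_mono (subset_univ _)).trans_lt (lt_top_iff_ne_top.2 hρ.fin)).ne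
    · intro x hx
      have h3 : -b < tc x := hx
      change -tc x ≤ b
      linarith)
  obtain ⟨x₁, hx₁, hx₁'⟩ := hbx
  refine ⟨a, -b, by linarith, hax, ⟨x₁, hx₁, by linarith⟩, min A₁ A₂, lt_min hA₁ hA₂,
    fun h hh hle u hu => ?_⟩
  have hA1 := hle.trans (min_le_left _ _)
  have hA2 := hle.trans (min_le_right _ _)
  obtain ⟨-, -, hP, -⟩ := h2 _ ρ hρ h hh
  obtain ⟨hZ, hstd, hone, -⟩ := std_p hP
  have hld := hstd.ld hone
  change mn (nW (Uh h ρ)) u ≤ τ
  unfold mn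
  rcases lt_or_ge u a with hua | hua
  · refine (min_le_left _ _).trans (le_trans ?_ (H1 h hh hA1))
    exact setIntegral_mono_set hld.int.integrableOn
      (Eventually.of_forall fun t => (hld.pos t).le) (Iic_subset_Iic.2 hua.le).eventuallyLE
  · have hub : -b < u := by
      by_contra hcon
      exact hu ⟨hua, not_lt.1 hcon⟩
    refine (min_le_right _ _).trans (le_trans ?_ (H2 h hh hA2))
    exact setIntegral_mono_set hld.int.integrableOn
      (Eventually.of_forall fun t => (hld.pos t).le) (Ioi_subset_Ioi hub.le).eventuallyLE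

end Pool.Agent.Q38.EM
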